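import Pool.Agent.W38.EN.Cir
import Pool.Agent.W320.EN.Tail
import Pool.Agent.W819.NC.Stm

/-!
# Geometry of chains
-/

set_option autoImplicit false

namespace Pool.Agent.W12.NC
open H974 Finset Pool.Agent.W819.EN Pool.Agent.W819.NC Pool.Agent.W38.EN

theorem t_ZERO : ∀ (F : Finset Edg) (v : Vtx) (r : ℕ), NA F v r r = 0 := by
  intro F v r
  apply Nat.le_zero.1
  apply Nat.sInf_le
  have e : nmv v (v.1 + v.2 + 2 * (r : ℤ), v.1 - v.2) = 2 * r := by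
    unfold nmv
    simp only
    rw [show v.1 + v.2 + 2 * (r : ℤ) - (v.1 + v.2) = 2 * r by ring, sub_self, abs_zero, add_zero]
    exact abs_of_nonneg (by positivity)
  exact ⟨_, _, e.le, e.ge, Ch.refl _ _⟩

theorem nmv_le {v w : Vtx} {D : ℕ} (h1 : |v.1 - w.1| ≤ D) (h2 : |v.2 - w.2| ≤ D) (p : ℤ × ℤ) :
    nmv v p ≤ nmv w p + 2 * D := by
  unfold nmv
  rw [abs_le] at h1 h2
  rcases abs_cases (p.1 - (v.1 + v.2)) with ⟨e1, _⟩ | ⟨e1, _⟩ <;>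
  rcases abs_cases (p.2 - (v.1 - v.2)) with ⟨e2, _⟩ | ⟨e2, _⟩ <;>
  rcases abs_cases (p.1 - (w.1 + w.2)) with ⟨e3, _⟩ | ⟨e3, _⟩ <;>
  rcases abs_cases (p.2 - (w.1 - w.2)) with ⟨e4, _⟩ | ⟨e4, _⟩ <;>
    rw [e1, e2, e3, e4] <;> omega

theorem t_INCL : ∀ (F : Finset Edg) (v w : Vtx) (r R D : ℕ), |v.1 - w.1| ≤ D →
    |v.2 - w.2| ≤ D → NA F v (r + D) R ≤ NA F w r (R + D) := by
  intro F v w r R D h1 h2
  obtain ⟨p, q, hp, hq, hc⟩ := NA_spec F w r (R + D)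
  apply Nat.sInf_le
  refine ⟨p, q, ?_, ?_, hc⟩
  · have := nmv_le h1 h2 p
    push_cast
    omega
  · have h1' : |w.1 - v.1| ≤ D := by rw [abs_sub_comm]; exact h1
    have h2' : |w.2 - v.2| ≤ D := by rw [abs_sub_comm]; exact h2
    have := nmv_le h1' h2' q
    push_cast at hq
    omega

/-- a crossing after opening `Kc` edges -/
theorem kc_spec {a b c d : ℤ} (hab : a ≤ b) (hcd : c ≤ d) (F : Finset Edg) :
    ∃ (y y' : ℤ), (c ≤ y ∧ y ≤ d) ∧ (c ≤ y' ∧ y' ≤ d) ∧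
      Ch (Mv (↑F : Set Edg)) St (2 * Kc F a b c d) (fc (a, y)) (fc (b, y')) := by
  have hne : {k | Opn k (LRE a b c d) (LRc a b c d) F}.Nonempty := by
    refine ⟨(LRE a b c d).card, LRE a b c d, Finset.Subset.refl _, le_rfl, ?_⟩
    refine ⟨c, c, ⟨le_rfl, hcd⟩, ⟨le_rfl, hcd⟩, ?_⟩
    have h := Pool.Agent.W320.EN.line_h (G := ↑(F ∪ LRE a b c d) ∩ ↑(LRE a b c d)) (a := a)
      (y := c) (b - a).toNat ?_
    · rwa [show a + ((b - a).toNat : ℤ) = b by omega] at h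
    · intro x h1 h2
      have h3 : ((x, c, true) : Edg) ∈ LRE a b c d := by
        rw [mem_LRE_true]
        omega
      exact ⟨mem_coe.2 (mem_union_right _ h3), mem_coe.2 h3⟩
  obtain ⟨X, _, hX, y, y', hy, hy', hr⟩ := Nat.sInf_mem hne
  refine ⟨y, y', hy, hy', ?_⟩
  have h1 : Reach (↑F ∪ ↑X : Set Edg) (a, y) (b, y') := by
    apply hr.mono
    intro e he
    have h2 := he.1
    rw [Finset.coe_union] at h2
    exact h2
  exact (reach_chain X h1).mono (Nat.mul_le_mul_left 2 hX)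

theorem t_RIGHT : ∀ (F : Finset Edg) (v : Vtx) (h r R : ℕ), h ≤ r → r ≤ R →
    NA F v r R ≤ 2 * Kc F (v.1 + r) (v.1 + R) (v.2 - h) (v.2 + h) := by
  intro F v h r R hhr hrR
  obtain ⟨y, y', hy, hy', hc⟩ := kc_spec (a := v.1 + r) (b := v.1 + R) (c := v.2 - h)
    (d := v.2 + h) (by omega) (by omega) F
  apply Nat.sInf_le
  refine ⟨_, _, ?_, ?_, hc⟩
  · unfold nmv fc
    simp only
    rcases abs_cases (v.1 + (r : ℤ) + y - (v.1 + v.2)) with ⟨e1, _⟩ | ⟨e1, _⟩ <;>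
    rcases abs_cases (v.1 + (r : ℤ) - y - (v.1 - v.2)) with ⟨e2, _⟩ | ⟨e2, _⟩ <;>
      rw [e1, e2] <;> omega
  · unfold nmv fc
    simp only
    have e1 := le_abs_self (v.1 + (R : ℤ) + y' - (v.1 + v.2))
    have e2 := le_abs_self (v.1 + (R : ℤ) - y' - (v.1 - v.2))
    linarith

theorem t_LEFT : ∀ (F : Finset Edg) (v : Vtx) (h r R : ℕ), h ≤ r → r ≤ R →
    NA F v r R ≤ 2 * Kc F (v.1 - R) (v.1 - r) (v.2 - h) (v.2 + h) := by
  intro F v h r R hhr hrR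
  obtain ⟨y, y', hy, hy', hc⟩ := kc_spec (a := v.1 - R) (b := v.1 - r) (c := v.2 - h)
    (d := v.2 + h) (by omega) (by omega) F
  apply Nat.sInf_le
  refine ⟨_, _, ?_, ?_, Ch_symm hc⟩
  · unfold nmv fc
    simp only
    rcases abs_cases (v.1 - (r : ℤ) + y' - (v.1 + v.2)) with ⟨e1, _⟩ | ⟨e1, _⟩ <;>
    rcases abs_cases (v.1 - (r : ℤ) - y' - (v.1 - v.2)) with ⟨e2, _⟩ | ⟨e2, _⟩ <;>
      rw [e1, e2] <;> omega
  · unfold nmv fc
    simp only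
    have e1 := neg_abs_le (v.1 - (R : ℤ) + y - (v.1 + v.2))
    have e2 := neg_abs_le (v.1 - (R : ℤ) - y - (v.1 - v.2))
    linarith

end Pool.Agent.W12.NC
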