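import Pool.Agent.W819.NC.Stm

/-!
# The cost of the annulus outside of `b` under the weighted law
-/

set_option autoImplicit false

namespace Pool.Agent.W12.NC.InB
open H974 Finset Pool.Agent.W819.EN Pool.Agent.W819.NC

lemma okP : Ok P2 := okq (q := (1 / 2 : ℝ)) (by norm_num) (by norm_num)

lemma bx_mono (v : Vtx) {k l : ℤ} (h : k ≤ l) : bx v k ⊆ bx v l := by
  unfold bx
  exact RE_subset (by omega) (by omega) (by omega) (by omega)

lemma inter_sub {A B F : Finset Edg} (h : A ⊆ B) : F ∩ B ∩ A = F ∩ A := by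
  ext x
  simp only [Finset.mem_inter]
  constructor
  · rintro ⟨⟨h1, -⟩, h2⟩
    exact ⟨h1, h2⟩
  · rintro ⟨h1, h2⟩
    exact ⟨⟨h1, h h2⟩, h2⟩

lemma loc' {N : NT} (hG : Geo N) {v : Vtx} {r R : ℕ} (h : r ≤ R)
    {S : Finset Edg} (hS : an v r R ⊆ S) (F : Finset Edg) : N F v r R = N (F ∩ S) v r R := by
  rw [hG.loc F v r R h, hG.loc (F ∩ S) v r R h, inter_sub hS]

lemma wloc' {N : NT} {W : WT} {K : KT} (h : Sys N W K) {v : Vtx} {b : ℕ} (hb : 1 ≤ b)
    {S : Finset Edg} (hS : an v b (2 * b) ⊆ S) (F : Finset Edg) : W F v b = W (F ∩ S) v b := by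
  rw [h.wloc F v b hb, h.wloc (F ∩ S) v b hb, inter_sub hS]

lemma an_mono {v : Vtx} {b R R' : ℕ} (h : R ≤ R') : an v b R ⊆ an v b R' :=
  Finset.sdiff_subset_sdiff (bx_mono v (by exact_mod_cast h)) (le_refl _)

lemma amgm (x y : ℝ) : x * y ≤ 1 / 2 * x ^ 2 + 1 / 2 * y ^ 2 := by
  nlinarith [sq_nonneg (x - y)]

/-- moments of the outer cost -/
lemma vmom {N : NT} {W : WT} {K : KT} (h : Sys N W K) (ha : AMom N) (s : ℝ) (hs : 1 ≤ s) (L : ℕ) :
    ∃ C : ℝ, 0 < C ∧ ∀ (v : Vtx) (b R : ℕ) (S : Finset Edg), 1 ≤ b → 2 * b ≤ R → R ≤ L * b →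
      bx v R ⊆ S → Ex P2 S (fun F => (s ^ (N F v b R + W F v b)) ^ 2) ≤ C := by
  have hs4 : 1 ≤ s ^ 4 := one_le_pow₀ hs
  obtain ⟨Ca, hCa, ha⟩ := ha (s ^ 4) hs4 L
  obtain ⟨Cw, hCw, hw⟩ := h.wmom (s ^ 4) hs4
  refine ⟨1 / 2 * Ca + 1 / 2 * Cw, by positivity, fun v b R S hb hbR hRL hS => ?_⟩
  have h1 := ha v b R S hb (by omega) hRL hS
  have h2 := hw v b S hb ((bx_mono v (by push_cast; omega)).trans hS)
  calc Ex P2 S (fun F => (s ^ (N F v b R + W F v b)) ^ 2)
      ≤ Ex P2 S (fun F => 1 / 2 * (s ^ 4) ^ N F v b R + 1 / 2 * (s ^ 4) ^ W F v b) := by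
        apply Ex_mono okP
        intro F _
        have e1 : (s ^ (N F v b R + W F v b)) ^ 2 = (s ^ 2) ^ N F v b R * (s ^ 2) ^ W F v b := by
          rw [← pow_mul, ← pow_mul, ← pow_mul, ← pow_add]
          congr 1
          ring
        have e2 : ∀ n : ℕ, ((s ^ 2) ^ n) ^ 2 = (s ^ 4) ^ n := by
          intro n
          rw [← pow_mul, ← pow_mul, ← pow_mul]
          congr 1
          ring
        rw [e1]
        refine (amgm _ _).trans (le_of_eq ?_)
        rw [e2, e2]
    _ = 1 / 2 * Ex P2 S (fun F => (s ^ 4) ^ N F v b R) +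
        1 / 2 * Ex P2 S (fun F => (s ^ 4) ^ W F v b) := by
        rw [Ex_add, Ex_mul_left, Ex_mul_left]
    _ ≤ _ := by linarith

lemma G_one {N : NT} (t : ℝ) (ht : 1 ≤ t) (r R : ℕ) : 1 ≤ G N t r R := by
  unfold G
  have h := Ex_mono okP (S := bx (0, 0) R) (f := fun _ => (1 : ℝ))
    (g := fun F => t ^ N F (0, 0) r R) (fun F _ => one_le_pow₀ ht)
  rwa [Ex_const] at h

/-- the induction, for `t ^ 2 ≤ s` and `16 ≤ L` -/
lemma main {N : NT} {W : WT} {K : KT} (h : Sys N W K) (hl : LocG N) (ha : AMom N)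
    (t s : ℝ) (L : ℕ) (ht : 1 ≤ t) (hs : 1 ≤ s) (hts : t ^ 2 ≤ s) (hL : 16 ≤ L) :
    ∃ A : ℝ, 0 < A ∧
    ∀ (v : Vtx) (r : ℕ) (S : Finset Edg) (b R : ℕ), r ≤ b → 1 ≤ b → 2 * b ≤ R → R ≤ L * b →
      bx v R ⊆ S →
      Ex P2 S (fun F => t ^ N F v r (2 * b) * s ^ (N F v b R + W F v b)) ≤ A * G N t r (2 * b) := by
  obtain ⟨C1, hC1, h1⟩ := vmom h ha s hs L
  obtain ⟨Cb, hCb, h2⟩ := ha (t ^ 2) (one_le_pow₀ ht) 8
  have ht12 : 0 < t ^ 12 := by positivity
  refine ⟨C1 + Cb + t ^ 12 * C1, by positivity, ?_⟩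
  set A := C1 + Cb + t ^ 12 * C1 with hA
  have hA1 : C1 ≤ A := by have := mul_pos ht12 hC1; rw [hA]; linarith
  have hA2 : 1 / 2 * Cb + 1 / 2 * C1 ≤ A := by have := mul_pos ht12 hC1; rw [hA]; linarith
  have hA3 : t ^ 12 * C1 ≤ A := by rw [hA]; linarith
  intro v r S b
  induction b using Nat.strong_induction_on with
  | _ b ih =>
    intro R hrb hb hbR hRL hS
    have hG1 := G_one (N := N) t ht r (2 * b)
    have hV := h1 v b R S hb hbR hRL hS
    by_cases hcase : 4 * max r 1 ≤ b
    · -- the step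
      set b' := b / 4 with hb'
      have hm1 : r ≤ max r 1 := le_max_left _ _
      have hm2 : 1 ≤ max r 1 := le_max_right _ _
      have k1 : max r 1 ≤ b' := by omega
      have k2 : r ≤ b' := hm1.trans k1
      have k3 : 1 ≤ b' := hm2.trans k1
      have k4 : 2 * b' ≤ b - 1 := by omega
      have k5 : b ≤ 7 * b' := by omega
      have k6 : 2 * b ≤ L * b' := by
        have : 16 * b' ≤ L * b' := Nat.mul_le_mul_right _ hL
        omega
      have hS2 : bx v ((2 * b : ℕ) : ℤ) ⊆ S := (bx_mono v (by exact_mod_cast hbR)).trans hS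
      have i1 := ih b' (by omega) (2 * b) k2 k3 (by omega) k6 hS2
      -- the second term
      have hX : ∀ F : Finset Edg, t ^ N F v r (2 * b') =
          t ^ N (F ∩ bx v ((b : ℤ) - 1)) v r (2 * b') := by
        intro F
        rw [← loc' h.geo (by omega)]
        exact sdiff_subset.trans (bx_mono v (by push_cast; omega))
      have hY : ∀ F : Finset Edg, (s ^ (N F v b R + W F v b)) ^ 2 =
          (s ^ (N (F ∩ an v b R) v b R + W (F ∩ an v b R) v b)) ^ 2 := by
        intro F
        rw [← loc' h.geo (by omega) (le_refl _), ← wloc' h hb (an_mono hbR)]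
      have hsub1 : bx v ((b : ℤ) - 1) ⊆ S := (bx_mono v (by omega)).trans hS
      have hsub2 : an v b R ⊆ S := sdiff_subset.trans hS
      have hdis : Disjoint (bx v ((b : ℤ) - 1)) (an v b R) := by
        unfold an
        exact disjoint_sdiff
      have hind := Ex_mul_indep (p := P2) hsub1 hsub2 hdis (f := fun F => t ^ N F v r (2 * b'))
        (g := fun F => (s ^ (N F v b R + W F v b)) ^ 2) (fun F _ => hX F) (fun F _ => hY F)
      have hS' : bx v ((2 * b' : ℕ) : ℤ) ⊆ S := (bx_mono v (by push_cast; omega)).trans hS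
      have g1 := hl t v r (2 * b') S (by omega) hS'
      have g2 := hl t v r (2 * b) S (by omega) hS2
      have g3 : G N t r (2 * b') ≤ G N t r (2 * b) := by
        rw [← g1, ← g2]
        apply Ex_mono okP
        intro F _
        exact pow_le_pow_right₀ ht (h.geo.mono F v r r (2 * b') (2 * b) le_rfl (by omega))
      rw [g1] at hind
      have hG' : 0 ≤ G N t r (2 * b') := zero_le_one.trans (G_one t ht r (2 * b'))
      have hsec : Ex P2 S (fun F => t ^ N F v r (2 * b') * (s ^ (N F v b R + W F v b)) ^ 2) ≤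
          G N t r (2 * b') * C1 := by
        rw [hind]
        exact mul_le_mul_of_nonneg_left hV hG'
      calc Ex P2 S (fun F => t ^ N F v r (2 * b) * s ^ (N F v b R + W F v b))
          ≤ Ex P2 S (fun F => 1 / 2 * (t ^ N F v r (2 * b') *
              s ^ (N F v b' (2 * b) + W F v b')) +
              1 / 2 * (t ^ N F v r (2 * b') * (s ^ (N F v b R + W F v b)) ^ 2)) := by
            apply Ex_mono okP
            intro F _
            have j := h.join F v b' r (2 * b) k3 k2 (by omega)
            set a := N F v b' (2 * b) + W F v b' with ha'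
            set V := N F v b R + W F v b
            have j2 : N F v r (2 * b) ≤ N F v r (2 * b') + a := by omega
            have e1 : t ^ N F v r (2 * b) ≤ t ^ N F v r (2 * b') * t ^ a := by
              rw [← pow_add]
              exact pow_le_pow_right₀ ht j2
            have e2 : t ^ a * s ^ V ≤ 1 / 2 * s ^ a + 1 / 2 * (s ^ V) ^ 2 := by
              refine (amgm _ _).trans ?_
              have : (t ^ a) ^ 2 ≤ s ^ a := by
                rw [← pow_mul, mul_comm a 2, pow_mul]
                exact pow_le_pow_left₀ (by positivity) hts a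
              linarith
            have hX0 : 0 ≤ t ^ N F v r (2 * b') := by positivity
            calc t ^ N F v r (2 * b) * s ^ V ≤ t ^ N F v r (2 * b') * t ^ a * s ^ V :=
                  mul_le_mul_of_nonneg_right e1 (by positivity)
              _ = t ^ N F v r (2 * b') * (t ^ a * s ^ V) := by ring
              _ ≤ t ^ N F v r (2 * b') * (1 / 2 * s ^ a + 1 / 2 * (s ^ V) ^ 2) :=
                  mul_le_mul_of_nonneg_left e2 hX0
              _ = _ := by ring
        _ = 1 / 2 * Ex P2 S (fun F => t ^ N F v r (2 * b') *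
              s ^ (N F v b' (2 * b) + W F v b')) +
            1 / 2 * Ex P2 S (fun F => t ^ N F v r (2 * b') *
              (s ^ (N F v b R + W F v b)) ^ 2) := by
            rw [Ex_add, Ex_mul_left, Ex_mul_left]
        _ ≤ 1 / 2 * (A * G N t r (2 * b')) + 1 / 2 * (G N t r (2 * b') * C1) := by linarith
        _ ≤ 1 / 2 * (A * G N t r (2 * b')) + 1 / 2 * (G N t r (2 * b') * A) := by
            have := mul_le_mul_of_nonneg_left hA1 hG'
            linarith
        _ = A * G N t r (2 * b') := by ring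
        _ ≤ A * G N t r (2 * b) := mul_le_mul_of_nonneg_left g3 (by linarith)
    · -- the base
      push Not at hcase
      have hS2 : bx v ((2 * b : ℕ) : ℤ) ⊆ S := (bx_mono v (by exact_mod_cast hbR)).trans hS
      rcases Nat.eq_zero_or_pos r with hr | hr
      · have hb3 : b ≤ 3 := by
          rw [hr] at hcase
          simp at hcase
          omega
        calc Ex P2 S (fun F => t ^ N F v r (2 * b) * s ^ (N F v b R + W F v b))
            ≤ Ex P2 S (fun F => t ^ 12 * (s ^ (N F v b R + W F v b)) ^ 2) := by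
              apply Ex_mono okP
              intro F _
              have e1 : t ^ N F v r (2 * b) ≤ t ^ 12 :=
                pow_le_pow_right₀ ht ((h.geo.le F v r (2 * b)).trans (by omega))
              have e2 : s ^ (N F v b R + W F v b) ≤ (s ^ (N F v b R + W F v b)) ^ 2 := by
                have : 1 ≤ s ^ (N F v b R + W F v b) := one_le_pow₀ hs
                nlinarith
              exact mul_le_mul e1 e2 (by positivity) (by positivity)
          _ = t ^ 12 * Ex P2 S (fun F => (s ^ (N F v b R + W F v b)) ^ 2) := by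
              rw [Ex_mul_left]
          _ ≤ t ^ 12 * C1 := mul_le_mul_of_nonneg_left hV ht12.le
          _ ≤ A * 1 := by linarith
          _ ≤ A * G N t r (2 * b) := mul_le_mul_of_nonneg_left hG1 (by linarith)
      · have hb4 : b < 4 * r := by
          rwa [max_eq_left (by omega)] at hcase
        have h3 := h2 v r (2 * b) S hr (by omega) (by omega) hS2
        calc Ex P2 S (fun F => t ^ N F v r (2 * b) * s ^ (N F v b R + W F v b))
            ≤ Ex P2 S (fun F => 1 / 2 * (t ^ 2) ^ N F v r (2 * b) +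
                1 / 2 * (s ^ (N F v b R + W F v b)) ^ 2) := by
              apply Ex_mono okP
              intro F _
              refine (amgm _ _).trans (le_of_eq ?_)
              rw [← pow_mul, mul_comm (N F v r (2 * b)) 2, pow_mul]
          _ = 1 / 2 * Ex P2 S (fun F => (t ^ 2) ^ N F v r (2 * b)) +
                1 / 2 * Ex P2 S (fun F => (s ^ (N F v b R + W F v b)) ^ 2) := by
              rw [Ex_add, Ex_mul_left, Ex_mul_left]
          _ ≤ 1 / 2 * Cb + 1 / 2 * C1 := by linarith
          _ ≤ A * 1 := by linarith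
          _ ≤ A * G N t r (2 * b) := mul_le_mul_of_nonneg_left hG1 (by linarith)

end Pool.Agent.W12.NC.InB

namespace Pool.Agent.W12.NC
open H974 Finset Pool.Agent.W819.EN Pool.Agent.W819.NC

theorem t_INB {N : NT} {W : WT} {K : KT} (h : Sys N W K) (hl : LocG N) (ha : AMom N) :
    InB N W := by
  intro t s L ht hs
  obtain ⟨A, hA, hm⟩ := InB.main h hl ha t (max s (t ^ 2)) (max L 16) ht
    (hs.trans (le_max_left _ _)) (le_max_right _ _) (le_max_right _ _)
  refine ⟨A, hA, fun v r b R S hrb hb hbR hRL hS => ?_⟩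
  refine le_trans ?_ (hm v r S b R hrb hb hbR
    (hRL.trans (Nat.mul_le_mul_right _ (le_max_left _ _))) hS)
  apply Ex_mono InB.okP
  intro F _
  apply mul_le_mul_of_nonneg_left _ (by positivity)
  exact pow_le_pow_left₀ (by linarith) (le_max_left _ _) _

end Pool.Agent.W12.NC
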