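import Pool.Agent.W320.EN.Tail
import Pool.Agent.W819.NC.Stm

/-!
# Superexponential tails of the cost of a rectangle of any aspect ratio, from slabs
-/

namespace Pool.Agent.W12.NC
open H974 Finset Pool.Agent.W819.EN Pool.Agent.W819.NC Pool.Agent.W320.EN

theorem t_TAILM (hS : Slab) : TailM := by
  have ok : Ok P2 := okP
  obtain ⟨r, hr0, hr1, hS⟩ := hS
  intro M ρ hρ
  rcases Nat.eq_zero_or_pos M with hM0 | hM
  · refine ⟨1, one_pos, fun w h hh1 hw hwh k => ?_⟩
    rw [hM0] at hwh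
    push_cast at hwh
    omega
  rcases le_or_gt 1 ρ with h1 | h1
  · refine ⟨1, one_pos, fun w h _ _ _ k => ?_⟩
    rw [one_mul]
    exact (Pr_le_one ok _ _).trans (one_le_pow₀ h1)
  obtain ⟨m0, hm0⟩ := exists_pow_lt_of_lt_one hρ hr1
  set m := m0 + 1 with hm
  have hmr : r ^ m ≤ ρ := by
    rw [hm, pow_succ]
    have : r ^ m0 * r ≤ r ^ m0 * 1 := mul_le_mul_of_nonneg_left hr1.le (by positivity)
    linarith
  obtain ⟨C, hC, hS⟩ := hS (3 * M * m)
  refine ⟨C ^ m + (1 / ρ) ^ (3 * M * m), by positivity, fun w h hh1 hw hwh k => ?_⟩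
  have hA : 0 ≤ C ^ m * ρ ^ k := by positivity
  have hB : 0 ≤ (1 / ρ) ^ (3 * M * m) * ρ ^ k := by positivity
  have hMz : (1 : ℤ) ≤ M := by exact_mod_cast hM
  rcases lt_or_ge h (3 * m) with hc | hc
  · -- low rectangles
    rcases lt_or_ge k (3 * M * m) with hk | hk
    · have h2 : 1 ≤ (1 / ρ) ^ (3 * M * m) * ρ ^ k := by
        have h3 : ρ ^ (3 * M * m) ≤ ρ ^ k := pow_le_pow_of_le_one hρ.le h1.le hk.le
        calc (1 : ℝ) = (1 / ρ) ^ (3 * M * m) * ρ ^ (3 * M * m) := by
              rw [← mul_pow, one_div, inv_mul_cancel₀ hρ.ne', one_pow]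
          _ ≤ _ := mul_le_mul_of_nonneg_left h3 (by positivity)
      have := Pr_le_one ok (LRE 0 w 0 h)
        (fun F => ¬ Opn k (LRE 0 w 0 h) (LRc 0 w 0 h) F)
      rw [add_mul]
      linarith
    · have hwk : w ≤ k := by
        have h5 : ((3 * M * m : ℕ) : ℤ) ≤ (k : ℤ) := by exact_mod_cast hk
        push_cast at h5
        have h6 : (M : ℤ) * h ≤ M * (3 * m) := mul_le_mul_of_nonneg_left hc.le (by omega)
        have h7 : (M : ℤ) * (3 * m) = 3 * M * m := by ring
        linarith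
      have h2 : Pr P2 (LRE 0 w 0 h) (fun F => ¬ Opn k (LRE 0 w 0 h) (LRc 0 w 0 h) F) ≤ 0 := by
        have h3 : Pr P2 (LRE 0 w 0 h) (fun F => Opn k (LRE 0 w 0 h) (LRc 0 w 0 h) F) = 1 :=
          Pr_true _ (fun F _ => cheap (by omega) (by omega) hwk F)
        rw [Pr_not, h3]
        norm_num
      refine h2.trans ?_
      rw [add_mul]
      linarith
  · -- high rectangles
    have hm1 : (0 : ℤ) < m := by omega
    obtain ⟨s, hs1, hs2, hs3⟩ : ∃ s : ℤ, 2 ≤ s ∧ m * (s + 1) ≤ h + 1 ∧ h + 1 < m * (s + 2) := by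
      refine ⟨(h + 1) / m - 1, ?_, ?_, ?_⟩
      · have : 3 ≤ (h + 1) / m := by
          rw [Int.le_ediv_iff_mul_le hm1]
          omega
        omega
      · have := Int.mul_ediv_self_le (x := h + 1) (k := (m : ℤ)) hm1.ne'
        have e : (h + 1) / (m : ℤ) - 1 + 1 = (h + 1) / m := by ring
        rw [e]
        exact this
      · have := Int.lt_mul_ediv_self_add (x := h + 1) (k := (m : ℤ)) hm1
        have e : (m : ℤ) * ((h + 1) / m - 1 + 2) = m * ((h + 1) / m) + m := by ring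
        rw [e]
        exact this
    have hws : w ≤ ((3 * M * m : ℕ) : ℤ) * s := by
      push_cast
      have h5 : h ≤ 3 * m * s := by nlinarith
      have h6 : (M : ℤ) * h ≤ M * (3 * m * s) := mul_le_mul_of_nonneg_left h5 (by omega)
      have h7 : (M : ℤ) * (3 * m * s) = 3 * M * m * s := by ring
      linarith
    have hD := hS w s hs1 hw hws k
    have hsl : ∀ j : ℕ, j < m → (j : ℤ) * (s + 1) + s ≤ h := by
      intro j hj
      have : (j : ℤ) + 1 ≤ m := by omega
      nlinarith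
    have h2 := pr_all (LRE 0 w 0 h) (fun j => LRE 0 w ((j : ℤ) * (s + 1)) ((j : ℤ) * (s + 1) + s))
      (fun j F => ¬ Opn k (LRE 0 w ((j : ℤ) * (s + 1)) ((j : ℤ) * (s + 1) + s))
        (LRc 0 w ((j : ℤ) * (s + 1)) ((j : ℤ) * (s + 1) + s)) F) (C * r ^ k) m ?_ ?_ ?_ ?_
    · calc Pr P2 (LRE 0 w 0 h) (fun F => ¬ Opn k (LRE 0 w 0 h) (LRc 0 w 0 h) F)
          ≤ Pr P2 (LRE 0 w 0 h) (fun F => ∀ j < m,
              ¬ Opn k (LRE 0 w ((j : ℤ) * (s + 1)) ((j : ℤ) * (s + 1) + s))
              (LRc 0 w ((j : ℤ) * (s + 1)) ((j : ℤ) * (s + 1) + s)) F) := by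
            apply Pr_mono ok
            intro F _ hF j hj hO
            exact hF (opn_slab hw (by positivity) (hsl j hj) hO)
        _ ≤ (C * r ^ k) ^ m := h2
        _ = C ^ m * (r ^ m) ^ k := by rw [mul_pow]; ring
        _ ≤ C ^ m * ρ ^ k := by
            apply mul_le_mul_of_nonneg_left _ (by positivity)
            exact pow_le_pow_left₀ (by positivity) hmr k
        _ ≤ (C ^ m + (1 / ρ) ^ (3 * M * m)) * ρ ^ k := by
            rw [add_mul]
            linarith
    · intro j hj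
      have hj2 := hsl j hj
      have hj3 : 0 ≤ (j : ℤ) * (s + 1) := by positivity
      rintro ⟨x, y, _ | _⟩ h8
      · simp only [mem_LRE_false] at h8 ⊢; omega
      · simp only [mem_LRE_true] at h8 ⊢; omega
    · intro i _ j _ hij
      have key : ∀ i j : ℕ, i < j → Disjoint (LRE 0 w ((i : ℤ) * (s + 1)) ((i : ℤ) * (s + 1) + s))
          (LRE 0 w ((j : ℤ) * (s + 1)) ((j : ℤ) * (s + 1) + s)) := by
        intro i j hij
        have h3 : (i : ℤ) * (s + 1) + s < (j : ℤ) * (s + 1) := by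
          have : (i : ℤ) + 1 ≤ j := by omega
          nlinarith
        rw [Finset.disjoint_left]
        rintro ⟨x, y, _ | _⟩ h8 h9
        · simp only [mem_LRE_false] at h8 h9; omega
        · simp only [mem_LRE_true] at h8 h9; omega
      rcases lt_or_gt_of_ne hij with h3 | h3
      · exact key i j h3
      · exact (key j i h3).symm
    · intro j _ F _
      rw [not_iff_not]
      exact opn_loc (Finset.Subset.refl _)
    · intro j hj
      have hj2 := hsl j hj
      have hj3 : 0 ≤ (j : ℤ) * (s + 1) := by positivity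
      have e1 : Pr P2 (LRE 0 w 0 h) (fun F => ¬ Opn k (LRE 0 w ((j : ℤ) * (s + 1))
          ((j : ℤ) * (s + 1) + s)) (LRc 0 w ((j : ℤ) * (s + 1)) ((j : ℤ) * (s + 1) + s)) F) =
          Pr P2 (LRE 0 w ((j : ℤ) * (s + 1)) ((j : ℤ) * (s + 1) + s))
          (fun F => ¬ Opn k (LRE 0 w ((j : ℤ) * (s + 1))
          ((j : ℤ) * (s + 1) + s)) (LRc 0 w ((j : ℤ) * (s + 1)) ((j : ℤ) * (s + 1) + s)) F) := by
        apply Pr_local
        · rintro ⟨x, y, _ | _⟩ h8
          · simp only [mem_LRE_false] at h8 ⊢; omega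
          · simp only [mem_LRE_true] at h8 ⊢; omega
        · intro F _
          rw [not_iff_not]
          exact opn_loc (Finset.Subset.refl _)
      show Pr P2 (LRE 0 w 0 h) (fun F => ¬ Opn k (LRE 0 w ((j : ℤ) * (s + 1))
          ((j : ℤ) * (s + 1) + s)) (LRc 0 w ((j : ℤ) * (s + 1)) ((j : ℤ) * (s + 1) + s)) F) ≤ _
      rw [e1]
      exact pr_trans.trans hD

end Pool.Agent.W12.NC
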